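import Pool.Agent.K7.H1.SD.Deg

/-!
# Numerical bounds
-/

set_option autoImplicit false
set_option linter.unusedSectionVars false

namespace Pool.Agent.K7.H1.SD

open Pool.Agent.H826R3.SM Pool.Agent.TH671.SD
open Filter Topology

theorem four_pow_choose (n : ℕ) : 4 ^ n * (3 * n).choose n ≤ 27 ^ n := by
  have h := add_pow 1 2 (3 * n)
  have h1 : 1 ^ n * 2 ^ (3 * n - n) * (3 * n).choose n ≤ (1 + 2) ^ (3 * n) := by
    rw [h]
    exact Finset.single_le_sum (f := fun m => 1 ^ m * 2 ^ (3 * n - m) * (3 * n).choose m)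
      (fun _ _ => Nat.zero_le _) (Finset.mem_range.2 (by omega))
  rw [show 3 * n - n = 2 * n by omega, one_pow, one_mul, pow_mul, pow_mul] at h1
  exact h1

theorem pow_le_choose (n N : ℕ) (h : n ≤ N) : N ^ n ≤ n ^ n * N.choose n := by
  induction n generalizing N with
  | zero => simp
  | succ n ih =>
    obtain ⟨M, rfl⟩ : ∃ M, N = M + 1 := ⟨N - 1, by omega⟩
    have h1 := ih M (by omega)
    have h2 : (M + 1) * M.choose n = (M + 1).choose (n + 1) * (n + 1) := Nat.add_one_mul_choose_eq M n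
    rcases Nat.eq_zero_or_pos n with rfl | hn
    · simp
    · -- `(M+1)^n * n^n ≤ (n+1)^n * M^n`
      have h3 : (M + 1) ^ n * n ^ n ≤ (n + 1) ^ n * M ^ n := by
        rw [← mul_pow, ← mul_pow]
        refine Nat.pow_le_pow_left ?_ n
        nlinarith
      have h4 : 0 < n ^ n := pow_pos hn n
      refine Nat.le_of_mul_le_mul_right (c := n ^ n) ?_ h4
      calc (M + 1) ^ (n + 1) * n ^ n = (M + 1) * ((M + 1) ^ n * n ^ n) := by ring
        _ ≤ (M + 1) * ((n + 1) ^ n * M ^ n) := Nat.mul_le_mul_left _ h3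
        _ ≤ (M + 1) * ((n + 1) ^ n * (n ^ n * M.choose n)) := by gcongr
        _ = ((n + 1) ^ n * n ^ n) * ((M + 1) * M.choose n) := by ring
        _ = (n + 1) ^ (n + 1) * (M + 1).choose (n + 1) * n ^ n := by rw [h2]; ring

/-- the degree of `Γ_T` -/
theorem rpow_mul_nat (d : ℕ) (ε : ℝ) (n : ℕ) :
    (d : ℝ) ^ ((1 + ε) * (n : ℝ)) = ((d : ℝ) ^ (1 + ε)) ^ n := by
  rw [Real.rpow_mul (Nat.cast_nonneg _), Real.rpow_natCast]

/-- the basic estimate of the ratio from below -/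
theorem ratio_lower {d n D : ℕ} (hd : 1 ≤ d) {ε x : ℝ} (hε : 0 ≤ ε)
    (h : (x * (d : ℝ) ^ (1 + ε)) ^ n ≤ (d : ℝ) ^ n + D) :
    x ^ n - 1 ≤ (D : ℝ) / (d : ℝ) ^ ((1 + ε) * (n : ℝ)) := by
  rw [rpow_mul_nat]
  have hd' : (1 : ℝ) ≤ d := by exact_mod_cast hd
  have hpos : 0 < ((d : ℝ) ^ (1 + ε)) ^ n := by positivity
  rw [le_div_iff₀ hpos, sub_mul, one_mul]
  have h1 : (d : ℝ) ^ n ≤ ((d : ℝ) ^ (1 + ε)) ^ n := by
    refine pow_le_pow_left₀ (by positivity) ?_ n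
    conv_lhs => rw [← Real.rpow_one (d : ℝ)]
    exact Real.rpow_le_rpow_of_exponent_le hd' (by linarith)
  rw [mul_pow] at h
  linarith

/-- for `ε < 1` and large `v`: `C · (6v+2)^{1+ε} ≤ v²` -/
theorem eventually_le (ε C : ℝ) (hε : ε < 1) :
    ∀ᶠ v : ℕ in atTop, C * ((6 * v + 2 : ℕ) : ℝ) ^ (1 + ε) ≤ (v : ℝ) ^ 2 := by
  -- `(6v+2)^(1+ε) ≤ (8v)^{1+e}` with `e = max ε 0`
  set e := max ε 0 with he
  have he1 : e < 1 := max_lt hε one_pos
  have he0 : 0 ≤ e := le_max_right _ _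
  have hlim : Tendsto (fun v : ℕ => (v : ℝ) ^ (1 - e)) atTop atTop :=
    (tendsto_rpow_atTop (by linarith)).comp tendsto_natCast_atTop_atTop
  filter_upwards [hlim.eventually_ge_atTop (|C| * (8 : ℝ) ^ (1 + e)), eventually_ge_atTop 1]
    with v hv hv1
  have hv' : (1 : ℝ) ≤ v := by exact_mod_cast hv1
  have h1 : ((6 * v + 2 : ℕ) : ℝ) ^ (1 + ε) ≤ (8 * (v : ℝ)) ^ (1 + e) := by
    have h2 : ((6 * v + 2 : ℕ) : ℝ) ^ (1 + ε) ≤ ((6 * v + 2 : ℕ) : ℝ) ^ (1 + e) :=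
      Real.rpow_le_rpow_of_exponent_le (by push_cast; linarith) (by
        have := le_max_left ε 0
        linarith)
    refine h2.trans (Real.rpow_le_rpow (by positivity) ?_ (by linarith))
    push_cast
    linarith
  have h3 : (8 * (v : ℝ)) ^ (1 + e) = (8 : ℝ) ^ (1 + e) * (v : ℝ) ^ (1 + e) :=
    Real.mul_rpow (by norm_num) (by positivity)
  have h4 : (v : ℝ) ^ 2 = (v : ℝ) ^ (1 - e) * (v : ℝ) ^ (1 + e) := by
    rw [← Real.rpow_add (by positivity), show (1 - e) + (1 + e) = 2 by ring, Real.rpow_two]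
  calc C * ((6 * v + 2 : ℕ) : ℝ) ^ (1 + ε) ≤ |C| * ((6 * v + 2 : ℕ) : ℝ) ^ (1 + ε) :=
        mul_le_mul_of_nonneg_right (le_abs_self C) (by positivity)
    _ ≤ |C| * ((8 : ℝ) ^ (1 + e) * (v : ℝ) ^ (1 + e)) := by
        rw [← h3]
        exact mul_le_mul_of_nonneg_left h1 (abs_nonneg _)
    _ = (|C| * (8 : ℝ) ^ (1 + e)) * (v : ℝ) ^ (1 + e) := by ring
    _ ≤ (v : ℝ) ^ (1 - e) * (v : ℝ) ^ (1 + e) :=
        mul_le_mul_of_nonneg_right hv (by positivity)
    _ = (v : ℝ) ^ 2 := h4.symm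

/-- there are infinitely many algebraically independent complex numbers -/
theorem exists_indep_complex : ∃ x : ℕ → ℂ, AlgebraicIndependent ℚ x := by
  obtain ⟨s, hs⟩ := exists_isTranscendenceBasis ℚ ℂ
  have h1 : Cardinal.mk s = Cardinal.mk ℂ := by
    refine (IsAlgClosed.cardinal_eq_cardinal_transcendence_basis_of_aleph0_lt' _ hs ?_ ?_).symm
    · exact Cardinal.mkRat.le
    · rw [Cardinal.mk_complex]
      exact Cardinal.aleph0_lt_continuum
  have h2 : Infinite s := by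
    rw [Cardinal.infinite_iff, h1, Cardinal.mk_complex]
    exact Cardinal.aleph0_le_continuum
  exact ⟨fun n => (Infinite.natEmbedding s n : ℂ), hs.1.comp _ (Infinite.natEmbedding s).injective⟩

end Pool.Agent.K7.H1.SD
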