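import Pool.Agent.K7.H1.SD.Low

/-!
# The lower bound by osculating spaces
-/

set_option autoImplicit false
set_option linter.unusedSectionVars false

namespace Pool.Agent.K7.H1.SD

open scoped TensorProduct PowerSeries
open Pool.Agent.H826R3.SM Pool.Agent.TH671.SD

section perm

variable {R P κ : Type} [CommRing R] [DecidableEq P] [DecidableEq κ]

/-- iterated derivatives of products of independent elements -/
theorem app_prod {D : P → R → R} (hD : ∀ p, IsDer (D p)) {y : P → R}
    (hy : ∀ p q, D p (y q) = if q = p then 1 else 0) (ps : List P) (hps : ps.Nodup)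
    (S : Finset κ) (e : κ → P) (he : Set.InjOn e S) (hS : S.card = ps.length) :
    app D ps (∏ s ∈ S, y (e s)) = if S.image e = ps.toFinset then 1 else 0 := by
  induction ps generalizing S with
  | nil =>
    have h1 : S = ∅ := by
      rw [List.length_nil, Finset.card_eq_zero] at hS
      exact hS
    subst h1
    simp [app_nil]
  | cons p ps ih =>
    rw [List.nodup_cons] at hps
    rw [app_cons, (hD p).prod]
    simp only [hy]
    by_cases h : ∃ s ∈ S, e s = p
    · obtain ⟨s, hs, hsp⟩ := h
      rw [Finset.sum_eq_single s]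
      · rw [if_pos hsp, one_mul]
        have hc : (S.erase s).card = ps.length := by
          rw [Finset.card_erase_of_mem hs, hS, List.length_cons, Nat.add_sub_cancel]
        rw [ih hps.2 (S.erase s) (he.mono (Finset.coe_subset.2 (Finset.erase_subset _ _))) hc]
        have h2 : (S.erase s).image e = (S.image e).erase p := by
          ext x
          simp only [Finset.mem_image, Finset.mem_erase]
          constructor
          · rintro ⟨a, ⟨ha1, ha2⟩, rfl⟩
            refine ⟨fun h3 => ha1 (he ha2 hs (h3.trans hsp.symm)), a, ha2, rfl⟩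
          · rintro ⟨h3, a, ha, rfl⟩
            refine ⟨a, ⟨fun h4 => h3 (by rw [h4, hsp]), ha⟩, rfl⟩
        have h3 : ps.toFinset = (List.toFinset (p :: ps)).erase p := by
          rw [List.toFinset_cons, Finset.erase_insert]
          rw [List.mem_toFinset]
          exact hps.1
        have hp1 : p ∈ S.image e := Finset.mem_image.2 ⟨s, hs, hsp⟩
        have hp2 : p ∈ List.toFinset (p :: ps) := by simp
        by_cases h4 : S.image e = List.toFinset (p :: ps)
        · rw [if_pos h4, if_pos]
          rw [h2, h3, h4]
        · rw [if_neg h4, if_neg]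
          intro h5
          apply h4
          rw [← Finset.insert_erase hp1, ← Finset.insert_erase hp2, ← h2, h5, h3,
            Finset.insert_erase hp2]
      · intro s' hs' hne
        rw [if_neg, zero_mul]
        intro h3
        exact hne (he hs' hs (h3.trans hsp.symm))
      · intro h3
        exact absurd hs h3
    · push Not at h
      rw [Finset.sum_eq_zero, app_zero hD, if_neg]
      · intro h1
        have h2 : p ∈ S.image e := by
          rw [h1]
          simp
        obtain ⟨s, hs, hsp⟩ := Finset.mem_image.1 h2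
        exact h s hs hsp
      · intro s hs
        rw [if_neg (h s hs), zero_mul]

theorem app_fin {D : P → R → R} (hD : ∀ p, IsDer (D p)) {y : P → R}
    (hy : ∀ p q, D p (y q) = if q = p then 1 else 0) {n : ℕ} (f g : Fin n → P)
    (hf : Function.Injective f) (hg : Function.Injective g) :
    app D (List.ofFn f) (∏ s, y (g s)) = if Set.range f = Set.range g then 1 else 0 := by
  rw [app_prod hD hy (List.ofFn f) (List.nodup_ofFn.2 hf) Finset.univ g (hg.injOn) (by simp)]
  congr 1
  rw [eq_iff_iff]
  constructor
  · intro h
    rw [← Finset.coe_inj] at h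
    simp only [Finset.coe_image, Finset.coe_univ, Set.image_univ, List.coe_toFinset,
      List.mem_ofFn] at h
    exact h.symm
  · intro h
    rw [← Finset.coe_inj]
    simp only [Finset.coe_image, Finset.coe_univ, Set.image_univ, List.coe_toFinset,
      List.mem_ofFn]
    exact h.symm

end perm

section series

variable {K : Type} [Field K] {P : Type}

theorem constantCoeff_app (d : P → K → K) (ps : List P) (f : K⟦X⟧) :
    PowerSeries.constantCoeff (app (fun p => coefMap (d p)) ps f) =
      app d ps (PowerSeries.constantCoeff f) := by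
  induction ps generalizing f with
  | nil => rfl
  | cons p ps ih => rw [app_cons, app_cons, ih, constantCoeff_coefMap]

theorem algebraMap_app {L : Type} [Field L] [Algebra K⟦X⟧ L] (d : P → K → K) (D : P → L → L)
    (h : ∀ p f, D p (algebraMap K⟦X⟧ L f) = algebraMap K⟦X⟧ L (coefMap (d p) f)) (ps : List P)
    (f : K⟦X⟧) : app D ps (algebraMap K⟦X⟧ L f) =
      algebraMap K⟦X⟧ L (app (fun p => coefMap (d p)) ps f) := by
  induction ps generalizing f with
  | nil => rfl
  | cons p ps ih => rw [app_cons, app_cons, h, ih]

/-- linear independence from the constant terms -/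
theorem linearIndependent_of_constantCoeff {Ω Q : Type} [Fintype Ω] [DecidableEq Ω]
    (M : Ω → Q → K⟦X⟧) (q : Ω → Q)
    (h : ∀ ω ω', PowerSeries.constantCoeff (M ω (q ω')) = if ω = ω' then 1 else 0) {L : Type}
    [Field L] [Algebra K⟦X⟧ L] (hinj : Function.Injective (algebraMap K⟦X⟧ L)) :
    LinearIndependent L fun ω => fun x => algebraMap K⟦X⟧ L (M ω x) := by
  let N : Matrix Ω Ω K⟦X⟧ := Matrix.of fun ω ω' => M ω (q ω')
  have h1 : (PowerSeries.constantCoeff (R := K)).mapMatrix N = 1 := by
    ext ω ω'
    rw [RingHom.mapMatrix_apply, Matrix.map_apply, Matrix.one_apply]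
    exact h ω ω'
  have h2 : N.det ≠ 0 := by
    intro h0
    have h3 := RingHom.map_det (PowerSeries.constantCoeff (R := K)) N
    rw [h1, Matrix.det_one, h0, map_zero] at h3
    exact zero_ne_one h3
  let N' : Matrix Ω Ω L := (algebraMap K⟦X⟧ L).mapMatrix N
  have h4 : N'.det ≠ 0 := by
    change ((algebraMap K⟦X⟧ L).mapMatrix N).det ≠ 0
    rw [← RingHom.map_det]
    exact fun h5 => h2 ((map_eq_zero_iff _ hinj).1 h5)
  have h5 : LinearIndependent L N'.row := Matrix.linearIndependent_rows_of_det_ne_zero h4
  exact LinearIndependent.of_comp (LinearMap.funLeft L L q) h5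

end series

section main

variable {K : Type} [Field K] [CharZero K] {m n : ℕ} {ι J : Type} [Fintype ι] [DecidableEq ι]
  [DecidableEq J]

/-- **The lower bound by osculating spaces.** -/
theorem card_le_of_inSmoothable {T : J → (Fin m → ι) → K}
    (hT : AlgebraicIndependent ℚ fun p : J × (Fin m → ι) => T p.1 p.2) (σ : Fin n → J)
    (hm : 1 ≤ m) {Ω : Type} [Fintype Ω] (e : Ω → Fin n → (Fin m → ι))
    (he : ∀ ω, Function.Injective fun s => (σ s, e ω s))
    (he' : ∀ ω ω', Set.range (fun s => (σ s, e ω s)) = Set.range (fun s => (σ s, e ω' s)) →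
      ω = ω') {D : ℕ}
    (hS : InSmoothable K (PiTensorProduct K fun s => ApolarAlg (mform (T (σ s)))) D) :
    Fintype.card Ω ≤ D * ((n * m).choose n * Fintype.card ι ^ n) := by
  classical
  obtain ⟨X, fX, hX, c, z, P, hP⟩ := exists_points
    (fun s j i => Ideal.Quotient.mk (annOf (mform (T (σ s)))) (MvPolynomial.X (j, i)))
    (fun s => mfun (T (σ s))) hS
  have hP' : ∀ q, PowerSeries.constantCoeff (P q) = ∏ s, T (σ s) (fun j => q (s, j)) := by
    intro q
    rw [(hP q).2]
    exact Finset.prod_congr rfl fun s _ => mfun_prod (T (σ s)) fun j => q (s, j)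
  choose d hd hdy using fun p : J × (Fin m → ι) => exists_isDer hT p
  choose E hE hEd using fun p : J × (Fin m → ι) => exists_der_closure (hd p)
  have halg : Function.Injective (algebraMap K⟦X⟧ (AlgebraicClosure (LaurentSeries K))) := by
    rw [IsScalarTower.algebraMap_eq K⟦X⟧ (LaurentSeries K) (AlgebraicClosure (LaurentSeries K))]
    exact (algebraMap (LaurentSeries K) (AlgebraicClosure (LaurentSeries K))).injective.comp
      (IsFractionRing.injective K⟦X⟧ (LaurentSeries K))
  let ps : Ω → List (J × (Fin m → ι)) := fun ω => List.ofFn fun s => (σ s, e ω s)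
  let M : Ω → (Fin n × Fin m → ι) → K⟦X⟧ := fun ω q =>
    app (fun p => coefMap (d p)) (ps ω) (P q)
  let Q : Ω → (Fin n × Fin m → ι) := fun ω x => e ω x.1 x.2
  have hM : ∀ ω ω', PowerSeries.constantCoeff (M ω (Q ω')) = if ω = ω' then 1 else 0 := by
    intro ω ω'
    change PowerSeries.constantCoeff (app (fun p => coefMap (d p)) (ps ω) (P (Q ω'))) = _
    rw [constantCoeff_app, hP']
    change app d (ps ω) (∏ s, (fun p : J × (Fin m → ι) => T p.1 p.2) ((fun s => (σ s, e ω' s)) s))
      = _
    rw [app_fin hd hdy _ _ (he ω) (he ω')]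
    by_cases h : ω = ω'
    · subst h
      rw [if_pos rfl, if_pos rfl]
    · rw [if_neg h, if_neg fun h' => h (he' _ _ h')]
  have hli := linearIndependent_of_constantCoeff M Q hM halg
  have hmem : ∀ ω, (fun x => algebraMap K⟦X⟧ (AlgebraicClosure (LaurentSeries K)) (M ω x)) ∈
      ⨆ t, osc (z t) n := by
    intro ω
    have h1 : (fun q => algebraMap K⟦X⟧ (AlgebraicClosure (LaurentSeries K)) (M ω q)) =
        ∑ t, fun q => app E (ps ω) (c t * ∏ x, z t x (q x)) := by
      funext q
      rw [Finset.sum_apply]
      change algebraMap K⟦X⟧ _ (app (fun p => coefMap (d p)) (ps ω) (P q)) = _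
      rw [← algebraMap_app d E hEd, (hP q).1, app_sum hE]
    rw [h1]
    refine Submodule.sum_mem _ fun t _ => ?_
    refine (le_iSup (fun t => osc (z t) n) t) ?_
    have h2 := app_osc hE (ps ω) (osc_zero (z t) (c t))
    rw [zero_add] at h2
    rwa [show (ps ω).length = n from List.length_ofFn] at h2
  have h3 := card_le_of_osc z n (by
    rw [Fintype.card_prod, Fintype.card_fin, Fintype.card_fin]
    exact Nat.le_mul_of_pos_right _ hm) hli hmem
  rw [Fintype.card_prod, Fintype.card_fin, Fintype.card_fin] at h3
  exact h3.trans (Nat.mul_le_mul_right _ hX)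

end main

end Pool.Agent.K7.H1.SD
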