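import Pool.Agent.K7.H1.SD.Low

/-!
# Section data for products of different schemes
-/

set_option autoImplicit false
set_option linter.unusedSectionVars false

namespace Pool.Agent.K7.H1.SD

open scoped TensorProduct PowerSeries
open Pool.Agent.H826R3.SM
open MvPolynomial PiTensorProduct

variable {k : Type} [Field k]

section gen

variable {n : ℕ} {A : Fin n → Type} [∀ i, CommRing (A i)] [∀ i, Algebra k (A i)]

lemma adjoin_pi {σ : Fin n → Type} {a : ∀ i, σ i → A i}
    (hgen : ∀ i, Algebra.adjoin k (Set.range (a i)) = ⊤) :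
    Algebra.adjoin k (Set.range fun v : (Σ i, σ i) =>
      PiTensorProduct.singleAlgHom (R := k) (A := A) v.1 (a v.1 v.2)) = ⊤ := by
  have hs : ∀ (i : Fin n) (x : A i), PiTensorProduct.singleAlgHom (R := k) (A := A)
      i x ∈ Algebra.adjoin k (Set.range fun v : (Σ i, σ i) =>
      PiTensorProduct.singleAlgHom (R := k) (A := A) v.1 (a v.1 v.2)) := by
    intro i x
    have hx : x ∈ Algebra.adjoin k (Set.range (a i)) := by rw [hgen i]; trivial
    have h1 : PiTensorProduct.singleAlgHom (R := k) (A := A) i x ∈
        (Algebra.adjoin k (Set.range (a i))).map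
          (PiTensorProduct.singleAlgHom (R := k) (A := A) i) := ⟨x, hx, rfl⟩
    rw [AlgHom.map_adjoin] at h1
    refine Algebra.adjoin_mono ?_ h1
    rintro _ ⟨_, ⟨s, rfl⟩, rfl⟩
    exact ⟨⟨i, s⟩, rfl⟩
  rw [eq_top_iff]
  rintro y -
  induction y using PiTensorProduct.induction_on with
  | smul_tprod r x =>
    refine Subalgebra.smul_mem _ ?_ r
    rw [tprod_eq_prod_single']
    exact Subalgebra.prod_mem _ fun i _ => hs i (x i)
  | add x y hx hy => exact Subalgebra.add_mem _ hx hy

end gen

lemma mem_span_prod' {n : ℕ} {σ : Fin n → Type} (M : MvPolynomial (Σ i, σ i) k) :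
    M ∈ Submodule.span k (Set.range fun N : ∀ i, MvPolynomial (σ i) k =>
      ∏ i, rename (Sigma.mk i) (N i)) := by
  classical
  induction M using MvPolynomial.induction_on with
  | C r =>
    have : (C r : MvPolynomial (Σ i, σ i) k) =
        r • ∏ i : Fin n, rename (Sigma.mk i) (1 : MvPolynomial (σ i) k) := by
      simp [MvPolynomial.smul_eq_C_mul]
    rw [this]
    exact Submodule.smul_mem _ _ (Submodule.subset_span ⟨fun _ => 1, rfl⟩)
  | add p q hp hq => exact Submodule.add_mem _ hp hq
  | mul_X p v hp =>
    induction hp using Submodule.span_induction with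
    | mem x hx =>
      obtain ⟨N, rfl⟩ := hx
      refine Submodule.subset_span ⟨Function.update N v.1 (N v.1 * X v.2), ?_⟩
      beta_reduce
      have h1 : ∀ i, rename (Sigma.mk i) (Function.update N v.1 (N v.1 * X v.2) i) =
          rename (Sigma.mk i) (N i) * (if i = v.1 then X v else 1) := by
        intro i
        by_cases h : i = v.1
        · subst h
          rw [Function.update_self, if_pos rfl, map_mul, rename_X]
        · rw [Function.update_of_ne h, if_neg h, mul_one]
      rw [Finset.prod_congr rfl fun i _ => h1 i, Finset.prod_mul_distrib,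
        Finset.prod_ite_eq' Finset.univ v.1, if_pos (Finset.mem_univ _)]
    | zero => rw [zero_mul]; exact Submodule.zero_mem _
    | add x y _ _ hx hy => rw [add_mul]; exact Submodule.add_mem _ hx hy
    | smul r x _ hx => rw [smul_mul_assoc]; exact Submodule.smul_mem _ _ hx

theorem hasSec_pi {n : ℕ} {A : Fin n → Type} [∀ i, CommRing (A i)] [∀ i, Algebra k (A i)]
    [∀ i, Module.Finite k (A i)] {T : Fin n → Type}
    [∀ i, Fintype (T i)] (H : ∀ i, HasSec k (A i) (T i)) :
    HasSec k (PiTensorProduct k A) (∀ i, T i) := by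
  classical
  choose σ a p h hgen hΛ using H
  let b : ∀ i, Module.Basis _ k (A i) := fun i => Module.finBasis k (A i)
  choose Λ hΛ' using fun i j => hΛ i ((b i).coord j)
  refine ⟨Σ i, σ i, fun v => PiTensorProduct.singleAlgHom (R := k) (A := A)
    v.1 (a v.1 v.2), fun t v => p v.1 (t v.1) v.2, ∑ i, h i, adjoin_pi hgen, ?_⟩
  intro φ
  let c : (∀ i, Fin (Module.finrank k (A i))) → k := fun q =>
    φ (Basis.piTensorProduct b q)
  refine ⟨fun t => ∑ q, PowerSeries.C (c q) * ∏ i, Λ i (q i) (t i), fun M => ?_⟩
  have hM := mem_span_prod' (k := k) (σ := σ) M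
  induction hM using Submodule.span_induction with
  | mem x hx =>
    obtain ⟨N, rfl⟩ := hx
    choose G hG1 hG2 using fun (i : Fin n) (j) => hΛ' i j (N i)
    refine ⟨∑ q, PowerSeries.C (c q) * ∏ i, G i (q i), ?_, ?_⟩
    · have h1 : ∀ t : ∀ i, T i, aeval (fun v : Σ i, σ i => p v.1 (t v.1) v.2)
          (∏ i, rename (Sigma.mk i) (N i)) = ∏ i, aeval (p i (t i)) (N i) := by
        intro t
        rw [map_prod]
        refine Finset.prod_congr rfl fun i _ => ?_
        rw [aeval_rename]
        rfl
      simp only [h1]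
      calc ∑ t : ∀ i, T i, (∑ q, PowerSeries.C (c q) * ∏ i, Λ i (q i) (t i)) *
            ∏ i, aeval (p i (t i)) (N i)
          = ∑ q, PowerSeries.C (c q) * ∑ t : ∀ i, T i,
              ∏ i, (Λ i (q i) (t i) * aeval (p i (t i)) (N i)) := by
            simp only [Finset.sum_mul, Finset.mul_sum, Finset.prod_mul_distrib, mul_assoc]
            exact Finset.sum_comm
        _ = ∑ q, PowerSeries.C (c q) *
              ∏ i, ∑ t : T i, Λ i (q i) t * aeval (p i t) (N i) := by
            refine Finset.sum_congr rfl fun q _ => ?_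
            rw [Finset.prod_univ_sum, Fintype.piFinset_univ]
        _ = ∑ q, PowerSeries.C (c q) * ∏ i, (PowerSeries.X ^ h i * G i (q i)) := by
            refine Finset.sum_congr rfl fun q _ => ?_
            simp only [hG1]
        _ = PowerSeries.X ^ (∑ i, h i) * ∑ q, PowerSeries.C (c q) * ∏ i, G i (q i) := by
            rw [Finset.mul_sum]
            refine Finset.sum_congr rfl fun q _ => ?_
            rw [Finset.prod_mul_distrib, Finset.prod_pow_eq_pow_sum]
            ring
    · have h2 : aeval (fun v : Σ i, σ i => PiTensorProduct.singleAlgHom (R := k)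
          (A := A) v.1 (a v.1 v.2)) (∏ i, rename (Sigma.mk i) (N i)) =
          (PiTensorProduct.tprod k fun i => aeval (a i) (N i) : PiTensorProduct k A) := by
        rw [map_prod, tprod_eq_prod_single']
        refine Finset.prod_congr rfl fun i _ => ?_
        rw [aeval_rename]
        change aeval (fun s => PiTensorProduct.singleAlgHom (R := k) (A := A)
          i (a i s)) (N i) = _
        rw [← MvPolynomial.comp_aeval_apply]
      rw [h2, ← (Basis.piTensorProduct b).sum_repr
        (PiTensorProduct.tprod k fun i => aeval (a i) (N i)), map_sum, map_sum]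
      refine Finset.sum_congr rfl fun q _ => ?_
      rw [map_mul, PowerSeries.constantCoeff_C, map_prod, map_smul, smul_eq_mul, mul_comm]
      congr 1
      rw [Basis.piTensorProduct_repr_tprod_apply]
      refine Finset.prod_congr rfl fun i _ => ?_
      rw [hG2]
      rfl
  | zero => exact ⟨0, by simp, by simp⟩
  | add x y _ _ hx hy =>
    obtain ⟨g1, h1, h1'⟩ := hx
    obtain ⟨g2, h2, h2'⟩ := hy
    refine ⟨g1 + g2, ?_, ?_⟩
    · rw [mul_add, ← h1, ← h2, ← Finset.sum_add_distrib]
      refine Finset.sum_congr rfl fun t _ => ?_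
      rw [map_add, mul_add]
    · rw [map_add, h1', h2', map_add, map_add]
  | smul r x _ hx =>
    obtain ⟨g1, h1, h1'⟩ := hx
    refine ⟨PowerSeries.C r * g1, ?_, ?_⟩
    · rw [mul_left_comm, ← h1, Finset.mul_sum]
      refine Finset.sum_congr rfl fun t _ => ?_
      rw [map_smul, PowerSeries.smul_eq_C_mul]
      ring
    · rw [map_mul, h1', PowerSeries.constantCoeff_C, map_smul, map_smul, smul_eq_mul]

theorem finrank_pi {n : ℕ} {A : Fin n → Type} [∀ i, CommRing (A i)] [∀ i, Algebra k (A i)]
    [∀ i, Module.Finite k (A i)] :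
    Module.finrank k (PiTensorProduct k A) = ∏ i, Module.finrank k (A i) := by
  have b := Basis.piTensorProduct (fun i => Module.finBasis k (A i))
  rw [Module.finrank_eq_card_basis b]
  simp

end Pool.Agent.K7.H1.SD
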