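import Pool.Agent.TH671.SD.KThree
import Pool.Agent.K7.H1.SD.Prod
import Pool.Agent.K7.H1.SD.Main

/-!
# The degrees of the schemes of tensors with algebraically independent entries
-/

set_option autoImplicit false
set_option linter.unusedSectionVars false

namespace Pool.Agent.K7.H1.SD

open Pool.Agent.H826R3.SM Pool.Agent.TH671.SD

variable {K : Type} [Field K] [CharZero K]

theorem det_ne_zero_of_indep {κ : Type} [Fintype κ] [DecidableEq κ] {N : Matrix κ κ K}
    (h : AlgebraicIndependent ℚ fun p : κ × κ => N p.1 p.2) : N.det ≠ 0 := by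
  intro h0
  have h1 := Matrix.det_mvPolynomialX_ne_zero κ ℚ
  apply h1
  apply h
  rw [map_zero, ← h0]
  change (MvPolynomial.aeval fun p : κ × κ => N p.1 p.2) _ = _
  rw [AlgHom.map_det]
  congr 1
  ext i j
  rw [AlgHom.mapMatrix_apply, Matrix.map_apply, Matrix.mvPolynomialX_apply, MvPolynomial.aeval_X]

theorem rank_flat_of_indep {v : ℕ} {T : (Fin 3 → Fin v) → K}
    (hT : AlgebraicIndependent ℚ T) (S : Finset (Fin 3)) (h1 : S ≠ ∅) (h2 : S ≠ Finset.univ) :
    (flat T S).rank = v := by
  classical
  apply le_antisymm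
  · let T' : Fin v → Fin v → Fin v → K := fun i j l => T ![i, j, l]
    have h3 : t3 T' = T := by
      funext a
      change T ![a 0, a 1, a 2] = T a
      congr 1
      funext i
      fin_cases i <;> rfl
    have h4 := rank_flat_le_mflat T S
    rw [← h3] at h4 ⊢
    refine h4.trans ((mflat_t3_le T').trans ?_)
    rw [Fintype.card_fin]
  · obtain ⟨j1, hj1⟩ := Finset.nonempty_iff_ne_empty.2 h1
    obtain ⟨j2, hj2⟩ : ∃ j, j ∉ S := by
      by_contra hcon
      push Not at hcon
      exact h2 (Finset.eq_univ_iff_forall.2 hcon)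
    let N : Matrix (Fin v) (Fin v) K := (flat T S).submatrix (fun i _ => i) (fun i _ => i)
    have h3 : AlgebraicIndependent ℚ fun p : Fin v × Fin v => N p.1 p.2 := by
      refine hT.comp (fun p : Fin v × Fin v => fun j : Fin 3 => if j ∈ S then p.1 else p.2) ?_
      intro p q hpq
      have e1 := congrFun hpq j1
      have e2 := congrFun hpq j2
      simp only [hj1, hj2, if_true, if_false] at e1 e2
      exact Prod.ext e1 e2
    have h4 := det_ne_zero_of_indep h3
    have h5 : N.rank = v := by
      rw [Matrix.rank_of_isUnit N ((Matrix.isUnit_iff_isUnit_det N).2 (isUnit_iff_ne_zero.2 h4)),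
        Fintype.card_fin]
    exact h5.symm.le.trans (Matrix.rank_submatrix_le _ _ _)

theorem rank_flat_triv {v : ℕ} {T : (Fin 3 → Fin v) → K} (hT : ∃ a, T a ≠ 0)
    (S : Finset (Fin 3)) (h : S = ∅ ∨ S = Finset.univ) : (flat T S).rank = 1 := by
  classical
  obtain ⟨a, ha⟩ := hT
  apply le_antisymm
  · rcases h with rfl | rfl
    · have h1 : flat T ∅ = Matrix.vecMulVec (fun _ => 1) T := by
        ext a b
        simp [flat, Matrix.vecMulVec_apply]
      rw [h1]
      exact Matrix.rank_vecMulVec_le _ _
    · have h1 : flat T Finset.univ = Matrix.vecMulVec T (fun _ => 1) := by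
        ext a b
        simp [flat, Matrix.vecMulVec_apply]
      rw [h1]
      exact Matrix.rank_vecMulVec_le _ _
  · rw [Nat.one_le_iff_ne_zero]
    intro h0
    have h1 := rank_eq_zero_aux h0
    have h2 : flat T S a a = 0 := by rw [h1]; rfl
    apply ha
    rw [← h2]
    simp [flat]
where
  rank_eq_zero_aux {v : ℕ} {T : (Fin 3 → Fin v) → K} {S : Finset (Fin 3)}
      (h0 : (flat T S).rank = 0) : flat T S = 0 := by
    rw [Matrix.rank, Submodule.finrank_eq_zero, LinearMap.range_eq_bot] at h0
    ext a b
    have h1 := congrFun (LinearMap.congr_fun h0 (Pi.single b 1)) a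
    rw [Matrix.mulVecLin_apply, Matrix.mulVec_single_one] at h1
    exact h1

/-- **The degree.** -/
theorem finrank_of_indep {v : ℕ} (hv : 1 ≤ v) {T : (Fin 3 → Fin v) → K}
    (hT : AlgebraicIndependent ℚ T) : Module.finrank K (ApolarAlg (mform T)) = 6 * v + 2 := by
  classical
  rw [finrank_mform]
  have hne : ∃ a, T a ≠ 0 := by
    have : Nonempty (Fin v) := ⟨⟨0, hv⟩⟩
    exact ⟨fun _ => Classical.arbitrary _, hT.ne_zero _⟩
  have h1 : ∀ S : Finset (Fin 3), (flat T S).rank =
      if S = ∅ ∨ S = Finset.univ then 1 else v := by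
    intro S
    split_ifs with h
    · exact rank_flat_triv hne S h
    · exact rank_flat_of_indep hT S (fun h' => h (Or.inl h')) (fun h' => h (Or.inr h'))
  rw [Finset.sum_congr rfl fun S _ => h1 S, Finset.sum_ite, Finset.sum_const, Finset.sum_const,
    show (Finset.univ.filter fun S : Finset (Fin 3) => S = ∅ ∨ S = Finset.univ).card = 2 by decide,
    show (Finset.univ.filter fun S : Finset (Fin 3) => ¬ (S = ∅ ∨ S = Finset.univ)).card = 6 by
      decide, smul_eq_mul, smul_eq_mul]
  ring

omit [CharZero K] in
/-- the rank is at most `v²` -/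
theorem TRk_sq {v : ℕ} (T : (Fin 3 → Fin v) → K) : TRk T (v ^ 2) := by
  classical
  have h := TRk.of_fintype (κ := Fin v × Fin v) (T := T) (fun _ => 1)
    (fun κ j i => if j = 0 then (if i = κ.1 then 1 else 0) else
      if j = 1 then (if i = κ.2 then 1 else 0) else T ![κ.1, κ.2, i]) (fun a => by
        simp only [Fin.prod_univ_three, one_mul, if_true, Fin.isValue, one_ne_zero, if_false,
          Fin.reduceEq]
        rw [Finset.sum_eq_single (a 0, a 1)]
        · simp only [if_true, one_mul]
          congr 1
          funext i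
          fin_cases i <;> rfl
        · intro b _ hb
          by_cases h1 : a 0 = b.1
          · rw [if_pos h1, if_neg, mul_zero, zero_mul]
            intro h2
            exact hb (Prod.ext h1.symm h2.symm)
          · rw [if_neg h1, zero_mul, zero_mul]
        · intro h
          exact absurd (Finset.mem_univ _) h)
  rw [Fintype.card_prod, Fintype.card_fin, ← sq] at h
  exact h

omit [CharZero K] in
/-- the upper bound for products -/
theorem exists_inSmoothable {v n : ℕ} (T : Fin n → (Fin 3 → Fin v) → K) :
    ∃ D ≤ (8 * v ^ 2) ^ n,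
      InSmoothable K (PiTensorProduct K fun s => ApolarAlg (mform (T s))) D := by
  classical
  have hfin : ∀ s, Module.Finite K (ApolarAlg (mform (T s))) := fun s => finite_mform (T s)
  obtain ⟨D, hD, hS⟩ := (hasSec_pi fun s => hasSec_mform (TRk_sq (T s))).inSmoothable
  refine ⟨D, hD.trans (le_of_eq ?_), hS⟩
  rw [Fintype.card_pi, Finset.prod_const, Finset.card_univ, Fintype.card_fin, Fintype.card_prod,
    Fintype.card_fin, Fintype.card_finset, Fintype.card_fin, mul_comm]
  norm_num

end Pool.Agent.K7.H1.SD
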