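import Mathlib

/-!
# Extension of derivations
-/

set_option autoImplicit false

namespace Pool.Agent.K7.H1.SD

open TensorProduct

/-- extension of derivations along formally étale maps -/
theorem exists_extend {R S T : Type} [CommRing R] [CommRing S] [CommRing T] [Algebra R S]
    [Algebra R T] [Algebra S T] [IsScalarTower R S T] [Algebra.FormallyEtale S T]
    (d : Derivation R S T) : ∃ d' : Derivation R T T, ∀ s, d' (algebraMap S T s) = d s := by
  refine ⟨((d.liftKaehlerDifferential.liftBaseChange T) ∘ₗ
    (KaehlerDifferential.tensorKaehlerEquivOfFormallyEtale R S T).symm.toLinearMap).compDer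
      (KaehlerDifferential.D R T), fun s => ?_⟩
  change (d.liftKaehlerDifferential.liftBaseChange T)
    ((KaehlerDifferential.tensorKaehlerEquivOfFormallyEtale R S T).symm
      (KaehlerDifferential.D R T (algebraMap S T s))) = _
  rw [KaehlerDifferential.tensorKaehlerEquivOfFormallyEtale_symm_D_algebraMap,
    LinearMap.liftBaseChange_tmul, one_smul, Derivation.liftKaehlerDifferential_comp_D]

open scoped IntermediateField.algebraAdjoinAdjoin in
/-- the partial derivatives with respect to an algebraically independent family -/
theorem exists_partial {K P : Type} [Field K] [CharZero K] {y : P → K}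
    (hy : AlgebraicIndependent ℚ y) [DecidableEq P] (p : P) :
    ∃ d : Derivation ℚ K K, ∀ q, d (y q) = if q = p then 1 else 0 := by
  classical
  obtain ⟨t, hst, ht⟩ := exists_isTranscendenceBasis_superset (R := ℚ) hy.coe_range
  have hti := ht.1
  let e := hti.aevalEquiv
  let p' : t := ⟨y p, hst ⟨p, rfl⟩⟩
  let A := Algebra.adjoin ℚ (Set.range ((↑) : t → K))
  let d0 : Derivation ℚ A K := Derivation.mk'
    ((MvPolynomial.aeval ((↑) : t → K)).toLinearMap ∘ₗ
      (MvPolynomial.pderiv p').toLinearMap ∘ₗ e.symm.toLinearMap) (by
        intro a b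
        change MvPolynomial.aeval ((↑) : t → K) (MvPolynomial.pderiv p' (e.symm (a * b))) =
          a • MvPolynomial.aeval ((↑) : t → K) (MvPolynomial.pderiv p' (e.symm b)) +
          b • MvPolynomial.aeval ((↑) : t → K) (MvPolynomial.pderiv p' (e.symm a))
        have hs : ∀ a : A, MvPolynomial.aeval ((↑) : t → K) (e.symm a) = (a : K) := by
          intro a
          have h1 := hti.algebraMap_aevalEquiv (e.symm a)
          rw [← h1]
          change ((e (e.symm a) : A) : K) = a
          rw [AlgEquiv.apply_symm_apply]
        rw [map_mul, Derivation.leibniz, map_add, smul_eq_mul, smul_eq_mul, map_mul, map_mul,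
          hs, hs]
        rfl)
  have h1 : Algebra.FormallyEtale A (IntermediateField.adjoin ℚ (Set.range ((↑) : t → K))) :=
    Algebra.FormallyEtale.of_isLocalization (nonZeroDivisors _)
  have h2 : Algebra.IsAlgebraic (IntermediateField.adjoin ℚ (Set.range ((↑) : t → K))) K :=
    ht.isAlgebraic_field
  have h3 : Algebra.FormallyEtale (IntermediateField.adjoin ℚ (Set.range ((↑) : t → K))) K :=
    Algebra.FormallyEtale.of_isSeparable _ K
  have h4 : Algebra.FormallyEtale A K :=
    Algebra.FormallyEtale.comp _ (IntermediateField.adjoin ℚ (Set.range ((↑) : t → K))) _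
  obtain ⟨d, hd⟩ := exists_extend d0
  refine ⟨d, fun q => ?_⟩
  let q' : t := ⟨y q, hst ⟨q, rfl⟩⟩
  have h5 : algebraMap A K (e (MvPolynomial.X q')) = y q := by
    rw [hti.algebraMap_aevalEquiv, MvPolynomial.aeval_X]
  rw [← h5, hd]
  change MvPolynomial.aeval ((↑) : t → K) (MvPolynomial.pderiv p'
    (e.symm (e (MvPolynomial.X q')))) = _
  rw [AlgEquiv.symm_apply_apply, MvPolynomial.pderiv_X]
  by_cases h : q = p
  · subst h
    rw [if_pos rfl, Pi.single_eq_same, map_one]
  · rw [if_neg h, Pi.single_eq_of_ne, map_zero]
    intro h6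
    exact h (hy.injective (congrArg Subtype.val h6.symm).symm)

end Pool.Agent.K7.H1.SD
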