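import Pool.Agent.K7.H1.SD.Der

/-!
# Extension of derivations to the algebraic closure of the field of Laurent series
-/

set_option autoImplicit false

namespace Pool.Agent.K7.H1.SD

open scoped PowerSeries

/-- `D` is a derivation -/
def IsDer {T : Type} [CommRing T] (D : T → T) : Prop :=
  (∀ x y, D (x + y) = D x + D y) ∧ ∀ x y, D (x * y) = x * D y + y * D x

section basic

variable {T : Type} [CommRing T] {D : T → T}

theorem IsDer.zero (h : IsDer D) : D 0 = 0 := by
  have := h.1 0 0
  rw [add_zero] at this
  exact left_eq_add.mp this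

theorem IsDer.one (h : IsDer D) : D 1 = 0 := by
  have := h.2 1 1
  rw [mul_one, one_mul] at this
  exact left_eq_add.mp this

/-- the additive map -/
def IsDer.hom (h : IsDer D) : T →+ T where
  toFun := D
  map_zero' := h.zero
  map_add' := h.1

theorem IsDer.sum (h : IsDer D) {κ : Type} (s : Finset κ) (f : κ → T) :
    D (∑ i ∈ s, f i) = ∑ i ∈ s, D (f i) := map_sum h.hom f s

theorem IsDer.prod (h : IsDer D) {κ : Type} [DecidableEq κ] (s : Finset κ) (f : κ → T) :
    D (∏ i ∈ s, f i) = ∑ i ∈ s, D (f i) * ∏ j ∈ s.erase i, f j := by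
  induction s using Finset.induction_on with
  | empty => rw [Finset.prod_empty, Finset.sum_empty, h.one]
  | insert a s ha ih =>
    rw [Finset.prod_insert ha, h.2, ih, Finset.sum_insert ha, Finset.erase_insert ha,
      Finset.mul_sum, add_comm, mul_comm (D (f a))]
    congr 1
    refine Finset.sum_congr rfl fun i hi => ?_
    have hne : a ≠ i := fun h => ha (h ▸ hi)
    rw [Finset.erase_insert_of_ne hne, Finset.prod_insert (fun h => ha (Finset.mem_of_mem_erase h))]
    ring

end basic

theorem exists_extend_fun {S T : Type} [CommRing S] [CommRing T] [Algebra S T]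
    [Algebra.FormallyEtale S T] (d : S → T) (ha : ∀ x y, d (x + y) = d x + d y)
    (hm : ∀ x y, d (x * y) = algebraMap S T x * d y + algebraMap S T y * d x) :
    ∃ D : T → T, IsDer D ∧ ∀ s, D (algebraMap S T s) = d s := by
  have h0 : d 0 = 0 := by
    have := ha 0 0
    rw [add_zero] at this
    exact left_eq_add.mp this
  let d1 : S →+ T := { toFun := d, map_zero' := h0, map_add' := ha }
  let d2 : Derivation ℤ S T := Derivation.mk' d1.toIntLinearMap (fun a b => by
    change d (a * b) = a • d b + b • d a
    rw [hm, Algebra.smul_def, Algebra.smul_def])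
  obtain ⟨D, hD⟩ := exists_extend d2
  refine ⟨D, ⟨fun x y => map_add _ _ _, fun x y => ?_⟩, fun s => hD s⟩
  rw [Derivation.leibniz, smul_eq_mul, smul_eq_mul]

/-- the partial derivatives with respect to an algebraically independent family -/
theorem exists_isDer {K P : Type} [Field K] [CharZero K] {y : P → K}
    (hy : AlgebraicIndependent ℚ y) [DecidableEq P] (p : P) :
    ∃ d : K → K, IsDer d ∧ ∀ q, d (y q) = if q = p then 1 else 0 := by
  obtain ⟨d, hd⟩ := exists_partial hy p
  refine ⟨d, ⟨fun x y => map_add _ _ _, fun x y => ?_⟩, hd⟩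
  rw [Derivation.leibniz, smul_eq_mul, smul_eq_mul]

variable {K : Type} [Field K]

/-- coefficientwise application of a map -/
noncomputable def coefMap (d : K → K) (f : K⟦X⟧) : K⟦X⟧ :=
  PowerSeries.mk fun n => d (PowerSeries.coeff n f)

theorem coeff_coefMap (d : K → K) (f : K⟦X⟧) (n : ℕ) :
    PowerSeries.coeff n (coefMap d f) = d (PowerSeries.coeff n f) := by
  rw [coefMap, PowerSeries.coeff_mk]

theorem IsDer.coefMap {d : K → K} (h : IsDer d) : IsDer (coefMap d) := by
  refine ⟨fun f g => ?_, fun f g => ?_⟩
  · ext n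
    rw [coeff_coefMap, map_add, map_add, h.1, coeff_coefMap, coeff_coefMap]
  · ext n
    rw [coeff_coefMap, PowerSeries.coeff_mul, h.sum, mul_comm g, map_add, PowerSeries.coeff_mul,
      PowerSeries.coeff_mul, ← Finset.sum_add_distrib]
    refine Finset.sum_congr rfl fun x _ => ?_
    rw [h.2, coeff_coefMap, coeff_coefMap, mul_comm (PowerSeries.coeff x.2 g)]

theorem constantCoeff_coefMap (d : K → K) (f : K⟦X⟧) :
    PowerSeries.constantCoeff (coefMap d f) = d (PowerSeries.constantCoeff f) := by
  rw [← PowerSeries.coeff_zero_eq_constantCoeff_apply, coeff_coefMap,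
    PowerSeries.coeff_zero_eq_constantCoeff_apply]

/-- the extension of a coefficientwise derivation to the algebraic closure of the field of Laurent
series -/
theorem exists_der_closure [CharZero K] {d : K → K} (h : IsDer d) :
    ∃ D : AlgebraicClosure (LaurentSeries K) → AlgebraicClosure (LaurentSeries K), IsDer D ∧
      ∀ f : K⟦X⟧, D (algebraMap K⟦X⟧ (AlgebraicClosure (LaurentSeries K)) f) =
        algebraMap K⟦X⟧ (AlgebraicClosure (LaurentSeries K)) (coefMap d f) := by
  have h0 : CharZero (LaurentSeries K) := by
    refine ⟨fun a b hab => ?_⟩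
    have h1 : algebraMap K (LaurentSeries K) a = algebraMap K (LaurentSeries K) b := by
      rw [map_natCast, map_natCast]
      exact hab
    have h2 := (algebraMap K (LaurentSeries K)).injective h1
    exact_mod_cast h2
  have h1 : Algebra.FormallyEtale K⟦X⟧ (LaurentSeries K) :=
    Algebra.FormallyEtale.of_isLocalization (nonZeroDivisors _)
  have h2 : Algebra.FormallyEtale (LaurentSeries K) (AlgebraicClosure (LaurentSeries K)) :=
    Algebra.FormallyEtale.of_isSeparable _ _
  have h3 : Algebra.FormallyEtale K⟦X⟧ (AlgebraicClosure (LaurentSeries K)) :=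
    Algebra.FormallyEtale.comp _ (LaurentSeries K) _
  refine exists_extend_fun (fun f => algebraMap K⟦X⟧ (AlgebraicClosure (LaurentSeries K))
    (coefMap d f)) (fun x y => ?_) (fun x y => ?_)
  · rw [h.coefMap.1, map_add]
  · rw [h.coefMap.2, map_add, map_mul, map_mul]

end Pool.Agent.K7.H1.SD
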