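import Pool.Agent.K7.H1.SD.DerSeries

/-!
# Osculating spaces of products of points
-/

set_option autoImplicit false
set_option linter.unusedSectionVars false

namespace Pool.Agent.K7.H1.SD

section osc

variable {L : Type} [Field L] {X ι : Type} [Fintype X] [DecidableEq X]

/-- the functions `h(q|F) · ∏_{x ∉ F} z x (q x)` -/
def lin (z : X → ι → L) (F : Finset X) :
    (({x // x ∈ F} → ι) → L) →ₗ[L] ((X → ι) → L) where
  toFun h := fun q => h (fun x => q x) * ∏ x ∈ Fᶜ, z x (q x)
  map_add' g h := by
    funext q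
    simp only [Pi.add_apply, add_mul]
  map_smul' c h := by
    funext q
    simp only [Pi.smul_apply, smul_eq_mul, RingHom.id_apply, mul_assoc]

theorem mem_range_lin {z : X → ι → L} {F : Finset X} {g : (X → ι) → L} :
    g ∈ LinearMap.range (lin z F) ↔ ∃ h : (X → ι) → L,
      (∀ q q' : X → ι, (∀ x ∈ F, q x = q' x) → h q = h q') ∧
      ∀ q, g q = h q * ∏ x ∈ Fᶜ, z x (q x) := by
  classical
  constructor
  · rintro ⟨h, rfl⟩
    exact ⟨fun q => h (fun x => q x), fun q q' hq => congrArg h (funext fun x => hq x.1 x.2),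
      fun q => rfl⟩
  · rintro ⟨h, h1, h2⟩
    refine ⟨fun w => if H : ∃ q : X → ι, (fun x : {x // x ∈ F} => q x) = w then h H.choose else 0, ?_⟩
    funext q
    rw [h2]
    change (if H : ∃ q' : X → ι, (fun x : {x // x ∈ F} => q' x) = (fun x : {x // x ∈ F} => q x)
      then h H.choose else 0) * _ = _
    have H : ∃ q' : X → ι, (fun x : {x // x ∈ F} => q' x) = (fun x : {x // x ∈ F} => q x) :=
      ⟨q, rfl⟩
    rw [dif_pos H]
    congr 1
    exact h1 _ _ fun x hx => congrFun H.choose_spec ⟨x, hx⟩

theorem range_lin_mono {z : X → ι → L} {F G : Finset X} (hFG : F ⊆ G) :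
    LinearMap.range (lin z F) ≤ LinearMap.range (lin z G) := by
  intro g hg
  rw [mem_range_lin] at hg ⊢
  obtain ⟨h, h1, h2⟩ := hg
  refine ⟨fun q => h q * ∏ x ∈ G \ F, z x (q x), fun q q' hq => ?_, fun q => ?_⟩
  · beta_reduce
    rw [h1 q q' fun x hx => hq x (hFG hx)]
    congr 1
    refine Finset.prod_congr rfl fun x hx => ?_
    rw [hq x (Finset.mem_sdiff.1 hx).1]
  · rw [h2, mul_assoc]
    congr 1
    rw [← Finset.prod_union]
    · refine Finset.prod_congr ?_ fun _ _ => rfl
      ext x
      simp only [Finset.mem_compl, Finset.mem_union, Finset.mem_sdiff]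
      have := @hFG x
      tauto
    · rw [Finset.disjoint_left]
      intro x hx hx'
      exact (Finset.mem_compl.1 hx') (Finset.mem_sdiff.1 hx).1

/-- the osculating space of order `l` -/
def osc (z : X → ι → L) (l : ℕ) : Submodule L ((X → ι) → L) :=
  ⨆ F : {F : Finset X // F.card ≤ l}, LinearMap.range (lin z F.1)

theorem mem_osc {z : X → ι → L} {l : ℕ} {F : Finset X} (hF : F.card ≤ l) {g : (X → ι) → L}
    (hg : g ∈ LinearMap.range (lin z F)) : g ∈ osc z l :=
  (le_iSup (fun F : {F : Finset X // F.card ≤ l} => LinearMap.range (lin z F.1)) ⟨F, hF⟩) hg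

theorem osc_zero (z : X → ι → L) (c : L) : (fun q : X → ι => c * ∏ x, z x (q x)) ∈ osc z 0 := by
  refine mem_osc (F := ∅) (by simp) ?_
  rw [mem_range_lin]
  exact ⟨fun _ => c, fun _ _ _ => rfl, fun q => by rw [Finset.compl_empty]⟩

theorem der_osc {D : L → L} (hD : IsDer D) {z : X → ι → L} {l : ℕ} {g : (X → ι) → L}
    (hg : g ∈ osc z l) : (fun q => D (g q)) ∈ osc z (l + 1) := by
  unfold osc at hg
  induction hg using Submodule.iSup_induction' with
  | zero =>
    have h1 : (fun q : X → ι => D ((0 : (X → ι) → L) q)) = 0 := by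
      funext q
      exact hD.zero
    rw [h1]
    exact Submodule.zero_mem _
  | add g g' _ _ ih ih' =>
    have h1 : (fun q : X → ι => D ((g + g') q)) = (fun q => D (g q)) + fun q => D (g' q) := by
      funext q
      exact hD.1 _ _
    rw [h1]
    exact Submodule.add_mem _ ih ih'
  | mem F g hg =>
    rw [mem_range_lin] at hg
    obtain ⟨h, h1, h2⟩ := hg
    have h3 : (fun q => D (g q)) = (∑ x ∈ F.1ᶜ, fun q : X → ι =>
        (h q * D (z x (q x))) * ∏ y ∈ (insert x F.1)ᶜ, z y (q y)) +
        fun q => D (h q) * ∏ x ∈ F.1ᶜ, z x (q x) := by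
      funext q
      rw [Pi.add_apply, Finset.sum_apply, h2, hD.2, hD.prod, Finset.mul_sum,
        mul_comm (∏ x ∈ F.1ᶜ, z x (q x))]
      congr 1
      refine Finset.sum_congr rfl fun x _ => ?_
      rw [Finset.compl_insert, mul_assoc]
    rw [h3]
    refine Submodule.add_mem _ (Submodule.sum_mem _ fun x hx => ?_) ?_
    · refine mem_osc (F := insert x F.1) ((Finset.card_insert_le _ _).trans
        (Nat.succ_le_succ F.2)) ?_
      rw [mem_range_lin]
      refine ⟨fun q => h q * D (z x (q x)), fun q q' hq => ?_, fun q => rfl⟩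
      beta_reduce
      rw [h1 q q' fun y hy => hq y (Finset.mem_insert_of_mem hy), hq x (Finset.mem_insert_self _ _)]
    · refine mem_osc (F := F.1) (F.2.trans (Nat.le_succ _)) ?_
      rw [mem_range_lin]
      refine ⟨fun q => D (h q), fun q q' hq => ?_, fun q => rfl⟩
      beta_reduce
      rw [h1 q q' hq]

/-- the iterated application of maps -/
def app {P R : Type} (D : P → R → R) (ps : List P) (x : R) : R := ps.foldl (fun y p => D p y) x

theorem app_cons {P R : Type} (D : P → R → R) (p : P) (ps : List P) (x : R) :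
    app D (p :: ps) x = app D ps (D p x) := rfl

theorem app_nil {P R : Type} (D : P → R → R) (x : R) : app D [] x = x := rfl

theorem app_osc {P : Type} {D : P → L → L} (hD : ∀ p, IsDer (D p)) (ps : List P)
    {z : X → ι → L} {l : ℕ} {g : (X → ι) → L} (hg : g ∈ osc z l) :
    (fun q => app D ps (g q)) ∈ osc z (l + ps.length) := by
  induction ps generalizing g l with
  | nil => exact hg
  | cons p ps ih =>
    have := ih (der_osc (hD p) hg)
    rw [List.length_cons, ← add_assoc, add_right_comm]
    exact this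

theorem app_zero {R P : Type} [CommRing R] {D : P → R → R} (hD : ∀ p, IsDer (D p))
    (ps : List P) : app D ps 0 = 0 := by
  induction ps with
  | nil => rfl
  | cons p ps ih => rw [app_cons, (hD p).zero, ih]

theorem app_add {R P : Type} [CommRing R] {D : P → R → R} (hD : ∀ p, IsDer (D p))
    (ps : List P) (x y : R) : app D ps (x + y) = app D ps x + app D ps y := by
  induction ps generalizing x y with
  | nil => rfl
  | cons p ps ih => rw [app_cons, app_cons, app_cons, (hD p).1, ih]

theorem app_sum {R P : Type} [CommRing R] {D : P → R → R} (hD : ∀ p, IsDer (D p))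
    (ps : List P) {κ : Type} (s : Finset κ) (f : κ → R) :
    app D ps (∑ i ∈ s, f i) = ∑ i ∈ s, app D ps (f i) := by
  classical
  induction s using Finset.induction_on with
  | empty => rw [Finset.sum_empty, Finset.sum_empty, app_zero hD]
  | insert a s ha ih => rw [Finset.sum_insert ha, Finset.sum_insert ha, app_add hD, ih]

end osc

section dim

variable {L : Type} [Field L] {X ι T : Type} [Fintype X] [DecidableEq X] [Fintype ι]
  [DecidableEq ι] [Fintype T]

/-- the vectors spanning the osculating spaces -/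
def oscVec (z : T → X → ι → L) (n : ℕ)
    (i : T × (Σ F : {F : Finset X // F.card = n}, ({x // x ∈ F.1} → ι))) : (X → ι) → L :=
  lin (z i.1) i.2.1.1 (Pi.single i.2.2 1)

theorem osc_le_span (z : T → X → ι → L) (n : ℕ) (hn : n ≤ Fintype.card X) (t : T) :
    osc (z t) n ≤ Submodule.span L (Set.range (oscVec z n)) := by
  refine iSup_le fun F => ?_
  obtain ⟨G, hFG, hG⟩ := Finset.exists_superset_card_eq F.2 (by simpa using hn)
  refine (range_lin_mono hFG).trans ?_
  rintro _ ⟨h, rfl⟩
  have h1 : h = ∑ w, h w • (Pi.single w (1 : L) : ({x // x ∈ G} → ι) → L) := by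
    funext w
    rw [Finset.sum_apply, Finset.sum_eq_single w]
    · simp
    · intro w' _ hw'
      simp [Pi.single_eq_of_ne hw'.symm]
    · intro hh
      exact absurd (Finset.mem_univ _) hh
  rw [h1, map_sum]
  refine Submodule.sum_mem _ fun w _ => ?_
  rw [map_smul]
  exact Submodule.smul_mem _ _ (Submodule.subset_span ⟨(t, ⟨⟨G, hG⟩, w⟩), rfl⟩)

theorem card_oscIdx (n : ℕ) :
    Fintype.card (T × (Σ F : {F : Finset X // F.card = n}, ({x // x ∈ F.1} → ι))) =
      Fintype.card T * ((Fintype.card X).choose n * Fintype.card ι ^ n) := by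
  rw [Fintype.card_prod, Fintype.card_sigma]
  congr 1
  have h1 : ∀ F : {F : Finset X // F.card = n},
      Fintype.card ({x // x ∈ F.1} → ι) = Fintype.card ι ^ n := by
    intro F
    rw [Fintype.card_fun, Fintype.card_coe, F.2]
  simp only [h1, Finset.sum_const, smul_eq_mul, Finset.card_univ]
  rw [Fintype.card_finset_len]

theorem card_le_of_osc (z : T → X → ι → L) (n : ℕ) (hn : n ≤ Fintype.card X)
    {Ω : Type} [Fintype Ω] {Y : Ω → (X → ι) → L} (hY : LinearIndependent L Y)
    (hmem : ∀ ω, Y ω ∈ ⨆ t, osc (z t) n) :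
    Fintype.card Ω ≤ Fintype.card T * ((Fintype.card X).choose n * Fintype.card ι ^ n) := by
  rw [← card_oscIdx (T := T) (X := X) (ι := ι) n, ← finrank_span_eq_card hY]
  refine le_trans (Submodule.finrank_mono ?_) (finrank_range_le_card (oscVec z n))
  rw [Submodule.span_le]
  rintro _ ⟨ω, rfl⟩
  exact (iSup_le fun t => osc_le_span z n hn t : (⨆ t, osc (z t) n) ≤ _) (hmem ω)

end dim

end Pool.Agent.K7.H1.SD
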