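import Pool.Agent.H826R3.SM.Lower3
import Pool.Agent.TH671.SD.KMain
import Pool.Agent.K7.H1.SD.Osc

/-!
# Points over the closure of the field of Laurent series from a smoothable scheme
-/

set_option autoImplicit false
set_option linter.unusedSectionVars false

namespace Pool.Agent.K7.H1.SD

open scoped TensorProduct PowerSeries
open Pool.Agent.H826R3.SM

section lower

variable {k : Type} [Field k] {n : ℕ} {A : Fin n → Type} [∀ s, CommRing (A s)]
  [∀ s, Algebra k (A s)]

/-- the functional `⊗ γ_s` -/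
noncomputable def gfam (γ : ∀ s, A s →ₗ[k] k) : (PiTensorProduct k A) →ₗ[k] k :=
  PiTensorProduct.lift ((MultilinearMap.mkPiAlgebra k (Fin n) k).compLinearMap γ)

theorem gfam_tprod (γ : ∀ s, A s →ₗ[k] k) (x : ∀ s, A s) :
    gfam γ (PiTensorProduct.tprod k x) = ∏ s, γ s (x s) := by
  unfold gfam
  rw [PiTensorProduct.lift.tprod]
  simp

theorem tprod_eq_prod_single' (x : ∀ s, A s) :
    (PiTensorProduct.tprod k x : PiTensorProduct k A) =
      ∏ i, PiTensorProduct.singleAlgHom (R := k) (A := A) i (x i) := by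
  conv_lhs => rw [← Finset.univ_prod_mulSingle x]
  rw [PiTensorProduct.tprod_prod]
  rfl

/-- **Points.** A product scheme in a smoothable scheme of degree `D` gives a decomposition of the
products of the multilinear forms `γ_s (∏_j p_{s,j})` into products of values at `D` points over the
closure of the field of Laurent series. -/
theorem exists_points {m : ℕ} {ι : Type} (p : ∀ s, Fin m → ι → A s)
    (γ : ∀ s, A s →ₗ[k] k) {D : ℕ} (hS : InSmoothable k (PiTensorProduct k A) D) :
    ∃ (T : Type) (_ : Fintype T), Fintype.card T ≤ D ∧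
      ∃ (c : T → AlgebraicClosure (LaurentSeries k))
        (z : T → (Fin n × Fin m) → ι → AlgebraicClosure (LaurentSeries k))
        (P : ((Fin n × Fin m) → ι) → k⟦X⟧), ∀ q,
          algebraMap k⟦X⟧ (AlgebraicClosure (LaurentSeries k)) (P q) =
            ∑ t, c t * ∏ x, z t x (q x) ∧
          PowerSeries.constantCoeff (P q) = ∏ s, γ s (∏ j, p s j (q (s, j))) := by
  classical
  obtain ⟨B, cB, aB, hBfin, ⟨𝒜, cA, aA, hfin, hflat, hred, e, he⟩, hD, f, hf⟩ := hS
  have hfree : Module.Free k⟦X⟧ 𝒜 := Module.free_of_flat_of_isLocalRing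
  let ρ : 𝒜 →+* PiTensorProduct k A :=
    f.toRingHom.comp (e.toRingHom.comp (Ideal.Quotient.mk _))
  have hρs : Function.Surjective ρ :=
    hf.comp (e.surjective.comp Ideal.Quotient.mk_surjective)
  have hρX : ρ (algebraMap k⟦X⟧ 𝒜 PowerSeries.X) = 0 := by
    change f (e (Ideal.Quotient.mk _ (algebraMap k⟦X⟧ 𝒜 PowerSeries.X))) = 0
    rw [Ideal.Quotient.eq_zero_iff_mem.mpr (Ideal.mem_span_singleton_self _), map_zero, map_zero]
  have hρC : ∀ c : k, ρ (algebraMap k⟦X⟧ 𝒜 (PowerSeries.C c)) =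
      algebraMap k (PiTensorProduct k A) c := by
    intro c
    change f (e (Ideal.Quotient.mk _ (algebraMap k⟦X⟧ 𝒜 (PowerSeries.C c)))) = _
    rw [he, f.commutes]
  have hρ : ∀ (r : k⟦X⟧) (x : 𝒜), ρ (r • x) = PowerSeries.constantCoeff r • ρ x := by
    intro r x
    obtain ⟨r', hr'⟩ := powerSeries_split r
    conv_lhs => rw [hr']
    rw [add_smul, map_add, Algebra.smul_def, Algebra.smul_def, map_mul, map_mul, hρC, map_mul,
      map_mul, hρX, zero_mul, zero_mul, add_zero, ← Algebra.smul_def]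
  have hrank : Module.finrank k⟦X⟧ 𝒜 ≤ D := by
    rw [← hD]
    exact finrank_family_le e he
  obtain ⟨T, fT, hT, χ, hχ⟩ := decomp hred
  choose aa haa using fun w : (Fin n × Fin m) × ι =>
    hρs (PiTensorProduct.singleAlgHom (R := k) (A := A) w.1.1 (p w.1.1 w.1.2 w.2))
  obtain ⟨Ψ, hΨ⟩ := exists_lift_functional ρ hρ (gfam γ)
  obtain ⟨c, hc⟩ := hχ Ψ
  refine ⟨T, fT, hT.trans hrank, c, fun t x i => χ t (aa (x, i)),
    fun q => Ψ (∏ x, aa (x, q x)), fun q => ⟨?_, ?_⟩⟩
  · rw [hc]
    refine Finset.sum_congr rfl fun t _ => ?_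
    rw [map_prod, mul_comm]
  · rw [hΨ, map_prod]
    simp only [haa]
    rw [Fintype.prod_prod_type]
    have h1 : ∀ s : Fin n, ∏ j : Fin m, PiTensorProduct.singleAlgHom (R := k) (A := A) s
        (p s j (q (s, j))) = PiTensorProduct.singleAlgHom (R := k) (A := A) s
        (∏ j, p s j (q (s, j))) := fun s => (map_prod _ _ _).symm
    simp only [h1]
    rw [← tprod_eq_prod_single' (fun s => ∏ j, p s j (q (s, j))), gfam_tprod]

end lower

end Pool.Agent.K7.H1.SD
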