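import Pool.Agent.K7.H1.SD.Bounds

/-!
# The bounds for products and for powers
-/

set_option autoImplicit false
set_option linter.unusedSectionVars false

namespace Pool.Agent.K7.H1.SD

open Pool.Agent.H826R3.SM Pool.Agent.TH671.SD
open Filter Topology

/-- The smoothability defect of the product of the schemes `Spec (A s)`, `s < n`. -/
noncomputable def prodDefect (K : Type) [Field K] {n : ℕ} (A : Fin n → Type)
    [∀ s, CommRing (A s)] [∀ s, Algebra K (A s)] : ℕ :=
  defect K (PiTensorProduct K A)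

/-- The smoothability defect of the product of the schemes `Γ_{T s}`, `s < n`. -/
noncomputable def pdef {K : Type} [Field K] {v n : ℕ} (T : Fin n → (Fin 3 → Fin v) → K) : ℕ :=
  prodDefect K fun s => ApolarAlg (mform (T s))

/-- The ratio `δ (Γ_{T 0} × ⋯ × Γ_{T (n - 1)}) / (deg (Γ_{T 0} × ⋯ × Γ_{T (n - 1)})) ^ (1 + ε)`. -/
noncomputable def ratP {K : Type} [Field K] {v : ℕ} (T : ℕ → (Fin 3 → Fin v) → K) (ε : ℝ)
    (n : ℕ) : ℝ :=
  ((pdef fun s : Fin n => T s : ℕ) : ℝ) / ((∏ s : Fin n, dgT (T s) : ℕ) : ℝ) ^ (1 + ε)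

/-- The entries of all the tensors `T 0, T 1, …` together are algebraically independent over the
rational numbers. -/
def IndepSeq {K : Type} [Field K] [CharZero K] {v : ℕ} (T : ℕ → (Fin 3 → Fin v) → K) : Prop :=
  AlgebraicIndependent ℚ fun p : ℕ × (Fin 3 → Fin v) => T p.1 p.2

section

variable {K : Type} [Field K] {v n : ℕ}

theorem pdef_spec (T : Fin n → (Fin 3 → Fin v) → K)
    (hT : ∀ s, Module.finrank K (ApolarAlg (mform (T s))) = 6 * v + 2) :
    InSmoothable K (PiTensorProduct K fun s => ApolarAlg (mform (T s)))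
      ((6 * v + 2) ^ n + pdef T) ∧ (6 * v + 2) ^ n + pdef T ≤ (8 * v ^ 2) ^ n := by
  have hfin : ∀ s, Module.Finite K (ApolarAlg (mform (T s))) := fun s => finite_mform (T s)
  have h1 : Module.finrank K (PiTensorProduct K fun s => ApolarAlg (mform (T s))) =
      (6 * v + 2) ^ n := by
    rw [finrank_pi, Finset.prod_congr rfl fun s _ => hT s, Finset.prod_const, Finset.card_univ,
      Fintype.card_fin]
  obtain ⟨D, hD, hS⟩ := exists_inSmoothable T
  have h2 := defect_spec hS
  have h3 := add_defect_le hS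
  rw [h1] at h2 h3
  exact ⟨h2, h3.trans hD⟩

variable [CharZero K]

theorem IndepSeq.apply {T : ℕ → (Fin 3 → Fin v) → K} (hT : IndepSeq T) (i : ℕ) :
    AlgebraicIndependent ℚ (T i) :=
  hT.comp (fun a => (i, a)) fun _ _ h => (Prod.ext_iff.1 h).2

/-- mixed products -/
theorem mixed_lower (hv : 1 ≤ v) {T : ℕ → (Fin 3 → Fin v) → K} (hT : IndepSeq T)
    (σ : Fin n → ℕ) (hσ : Function.Injective σ) :
    v ^ (2 * n) ≤ (3 * n).choose n * ((6 * v + 2) ^ n + pdef fun s => T (σ s)) := by
  classical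
  have hS := (pdef_spec (fun s => T (σ s)) fun s => finrank_of_indep hv (hT.apply _)).1
  have h1 := card_le_of_inSmoothable (Ω := Fin n → (Fin 3 → Fin v)) hT σ (by norm_num)
    (fun ω => ω) (fun ω s s' h => hσ (Prod.ext_iff.1 h).1) (fun ω ω' h => by
      funext s
      have h2 : (σ s, ω s) ∈ Set.range fun s => (σ s, ω' s) := by
        rw [← h]
        exact ⟨s, rfl⟩
      obtain ⟨s', hs'⟩ := h2
      rw [Prod.ext_iff] at hs'
      have h3 := hσ hs'.1
      subst h3
      exact hs'.2.symm) hS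
  simp only [Fintype.card_pi, Fintype.card_fin, Finset.prod_const, Finset.card_univ] at h1
  have h2 : 0 < v ^ n := pow_pos hv n
  refine Nat.le_of_mul_le_mul_right (c := v ^ n) ?_ h2
  calc v ^ (2 * n) * v ^ n = (v ^ 3) ^ n := by ring
    _ ≤ _ := h1
    _ = _ := by rw [mul_comm n 3]; ring

theorem mixed_lower' (hv : 1 ≤ v) {T : ℕ → (Fin 3 → Fin v) → K} (hT : IndepSeq T)
    (σ : Fin n → ℕ) (hσ : Function.Injective σ) :
    (4 * v ^ 2) ^ n ≤ 27 ^ n * ((6 * v + 2) ^ n + pdef fun s => T (σ s)) := by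
  calc (4 * v ^ 2) ^ n = 4 ^ n * v ^ (2 * n) := by rw [mul_pow, ← pow_mul]
    _ ≤ 4 ^ n * ((3 * n).choose n * ((6 * v + 2) ^ n + pdef fun s => T (σ s))) := by
        gcongr
        exact mixed_lower hv hT σ hσ
    _ = (4 ^ n * (3 * n).choose n) * ((6 * v + 2) ^ n + pdef fun s => T (σ s)) := by ring
    _ ≤ _ := by
        gcongr
        exact four_pow_choose n

/-- powers -/
theorem power_lower (hv : 1 ≤ v) {T : (Fin 3 → Fin v) → K} (hT : AlgebraicIndependent ℚ T) :
    (v ^ 3).choose n ≤ (3 * n).choose n * v ^ n * ((6 * v + 2) ^ n + dlT T n) := by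
  classical
  have hS := (pdef_spec (n := n) (fun _ => T) fun s => finrank_of_indep hv hT).1
  let N := v ^ 3
  have hN : Fintype.card (Fin 3 → Fin v) = N := by simp [N]
  let e0 : (Fin 3 → Fin v) ≃ Fin N := Fintype.equivFinOfCardEq hN
  have hT' : AlgebraicIndependent ℚ fun p : Unit × (Fin 3 → Fin v) =>
      (fun _ : Unit => T) p.1 p.2 :=
    hT.comp (fun p : Unit × (Fin 3 → Fin v) => p.2) fun p q h => Prod.ext (Subsingleton.elim _ _) h
  let e : {S : Finset (Fin N) // S.card = n} → Fin n → (Fin 3 → Fin v) := fun S s =>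
    e0.symm (S.1.orderEmbOfFin S.2 s)
  have he : ∀ S, Set.range (e S) = e0.symm '' (S.1 : Set (Fin N)) := by
    intro S
    rw [← Finset.range_orderEmbOfFin S.1 S.2, ← Set.range_comp]
    rfl
  have h1 := card_le_of_inSmoothable (J := Unit) (T := fun _ => T)
    (Ω := {S : Finset (Fin N) // S.card = n}) hT' (fun _ => ()) (by norm_num)
    e (fun S s s' h => (S.1.orderEmbOfFin S.2).injective
      (e0.symm.injective (Prod.ext_iff.1 h).2)) (fun S S' h => by
        have h2 : Set.range (e S) = Set.range (e S') := by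
          have h3 := congrArg (fun A : Set (Unit × (Fin 3 → Fin v)) => Prod.snd '' A) h
          simp only [← Set.range_comp] at h3
          exact h3
        rw [he, he] at h2
        exact Subtype.ext (Finset.coe_injective (e0.symm.injective.image_injective h2))) hS
  rw [Fintype.card_finset_len, Fintype.card_fin, Fintype.card_fin] at h1
  calc (v ^ 3).choose n ≤ _ := h1
    _ = _ := by
        rw [mul_comm n 3]
        change ((6 * v + 2) ^ n + dlT T n) * ((3 * n).choose n * v ^ n) = _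
        ring

theorem power_lower' (hv : 1 ≤ v) {T : (Fin 3 → Fin v) → K} (hT : AlgebraicIndependent ℚ T) :
    (4 * v ^ 2) ^ n ≤ (27 * n) ^ n * ((6 * v + 2) ^ n + dlT T n) := by
  have hd : 1 ≤ (6 * v + 2) ^ n + dlT T n := le_add_right (Nat.one_le_pow _ _ (by omega))
  rcases Nat.lt_or_ge (v ^ 3) n with h | h
  · -- trivial range
    have h1 : (4 * v ^ 2) ^ n ≤ (27 * n) ^ n := by
      refine Nat.pow_le_pow_left ?_ n
      have h2 : v ^ 2 ≤ v ^ 3 := Nat.pow_le_pow_right hv (by norm_num)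
      omega
    calc (4 * v ^ 2) ^ n ≤ (27 * n) ^ n * 1 := by rw [mul_one]; exact h1
      _ ≤ _ := Nat.mul_le_mul_left _ hd
  · have h1 := pow_le_choose n (v ^ 3) h
    have h2 : 0 < v ^ n := pow_pos hv n
    refine Nat.le_of_mul_le_mul_right (c := v ^ n) ?_ h2
    calc (4 * v ^ 2) ^ n * v ^ n = 4 ^ n * (v ^ 3) ^ n := by
          rw [mul_pow, mul_assoc, ← mul_pow]
          ring
      _ ≤ 4 ^ n * (n ^ n * (v ^ 3).choose n) := Nat.mul_le_mul_left _ h1
      _ ≤ 4 ^ n * (n ^ n * ((3 * n).choose n * v ^ n * ((6 * v + 2) ^ n + dlT T n))) := by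
          gcongr
          exact power_lower hv hT
      _ = (4 ^ n * (3 * n).choose n) * (n ^ n * v ^ n * ((6 * v + 2) ^ n + dlT T n)) := by ring
      _ ≤ 27 ^ n * (n ^ n * v ^ n * ((6 * v + 2) ^ n + dlT T n)) := by
          gcongr
          exact four_pow_choose n
      _ = _ := by rw [mul_pow]; ring

end

end Pool.Agent.K7.H1.SD
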